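import Pool.Agent.H.MP_1220fe_lc.K

set_option autoImplicit false

namespace Pool.Agent.Results.MP_474f70_lc.No

open Pool.Agent.H.MP_1220fe_lc

theorem result : ∃ (G : Type) (_ : Group G) (r : ℕ) (gens : Fin r → G), Infinite G ∧
    Subgroup.closure (Set.range gens) = ⊤ ∧
    REPred (fun w : List (Fin r × Bool) =>
      (w.map fun p => cond p.2 (gens p.1) (gens p.1)⁻¹).prod = 1) ∧
    ∃ c : List ℕ → Bool, Computable c ∧ (pi c).Nonempty ∧
      ∀ (k : ℕ) (X : Set (G → Fin k)), X.Nonempty →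
        ¬ (red (pi c) (hat gens '' X) ∧ red (hat gens '' X) (pi c)) :=
  ⟨G (Rl XK), inferInstance, 61, gn _, inferInstance, clos, wp_re (rl_re xk_re), gap⟩

end Pool.Agent.Results.MP_474f70_lc.No
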